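import Pool.Agent.H753.Iso

/-! There are two equivariant slice discs which are smoothly isotopic but not equivariantly
isotopic, neither smoothly nor topologically. -/

set_option autoImplicit false

namespace Pool.Agent.Results.MP_d3855f_gt.IsotopicNotEquivariantly

open Set
open scoped ContDiff

/-- Euclidean four-space -/
abbrev R4 : Type := EuclideanSpace ℝ (Fin 4)

/-- Euclidean plane -/
abbrev R2 : Type := EuclideanSpace ℝ (Fin 2)

/-- the closed unit ball -/
def B4 : Set R4 := Metric.closedBall 0 1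

/-- the unit sphere, the boundary of the ball -/
def S3 : Set R4 := Metric.sphere 0 1

/-- the point reflection of the three-sphere, whose fixed points are `(0, 0, 0, 1)` and
`(0, 0, 0, -1)` -/
noncomputable def pointReflection (p : R4) : R4 := !₂[-p 0, -p 1, -p 2, p 3]

/-- `f` is smooth on a neighbourhood of `S` -/
def SmoothNear (S : Set R4) (f : R4 → R4) : Prop := ∃ U : Set R4, IsOpen U ∧ S ⊆ U ∧ ContDiffOn ℝ ∞ f U

/-- `ρ` restricts to an involution of the three-sphere which is conjugate, by a diffeomorphism of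
the three-sphere, to the point reflection -/
def ConjugateToPointReflection (ρ : R4 → R4) : Prop :=
  ∃ φ ψ : R4 → R4, SmoothNear S3 φ ∧ SmoothNear S3 ψ ∧ MapsTo φ S3 S3 ∧ MapsTo ψ S3 S3 ∧
    (∀ x ∈ S3, ψ (φ x) = x) ∧ (∀ x ∈ S3, φ (ψ x) = x) ∧ ∀ x ∈ S3, ρ x = ψ (pointReflection (φ x))

/-- `(K, ρ)` is a strongly negative amphichiral knot: `K` is a smooth knot in the three-sphere, `ρ`
is an involution of the three-sphere conjugate to the point reflection, `ρ(K) = K`, and `ρ`
reverses the orientation of `K` -/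
def StronglyNegativeAmphichiral (K : Set R4) (ρ : R4 → R4) : Prop :=
  ConjugateToPointReflection ρ ∧ ρ '' K = K ∧ K ⊆ S3 ∧
    ∃ γ : ℝ → R4, ContDiff ℝ ∞ γ ∧ (∀ t, deriv γ t ≠ 0) ∧
      (∀ s t, γ s = γ t ↔ ∃ n : ℤ, s - t = n) ∧ range γ = K ∧
      ∃ σ : ℝ → ℝ, Continuous σ ∧ StrictAnti σ ∧ ∀ t, ρ (γ t) = γ (σ t)

/-- `R` restricts to a smooth involution of the closed four-ball which extends `ρ` -/
def SmoothInvolutionExtending (ρ R : R4 → R4) : Prop :=
  ContDiffOn ℝ ∞ R B4 ∧ MapsTo R B4 B4 ∧ (∀ x ∈ B4, R (R x) = x) ∧ ∀ x ∈ S3, R x = ρ x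

/-- `D` is a smooth slice disc with boundary `K`: the image of a smooth embedding of the closed unit
disc, which meets the sphere exactly in the image `K` of the unit circle, and transversally -/
def IsSliceDisk (K D : Set R4) : Prop :=
  ∃ e : R2 → R4, ContDiff ℝ ∞ e ∧ InjOn e (Metric.closedBall 0 1) ∧
    (∀ q ∈ Metric.closedBall (0 : R2) 1, Function.Injective (fderiv ℝ e q)) ∧
    e '' Metric.closedBall 0 1 = D ∧ e '' Metric.sphere 0 1 = K ∧ D ⊆ B4 ∧ D ∩ S3 = K ∧
    ∀ q ∈ Metric.sphere (0 : R2) 1, ∃ v, inner ℝ (e q) (fderiv ℝ e q v) ≠ 0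

/-- smooth ambient isotopy of the ball, fixing the sphere pointwise -/
def SmoothlyIsotopic (D₁ D₂ : Set R4) : Prop :=
  ∃ Φ Ψ : ℝ × R4 → R4, ContDiffOn ℝ ∞ Φ (Icc 0 1 ×ˢ B4) ∧ ContDiffOn ℝ ∞ Ψ (Icc 0 1 ×ˢ B4) ∧
    (∀ t ∈ Icc (0:ℝ) 1, ∀ x ∈ B4, Φ (t, x) ∈ B4 ∧ Ψ (t, x) ∈ B4 ∧ Ψ (t, Φ (t, x)) = x ∧
      Φ (t, Ψ (t, x)) = x) ∧
    (∀ t ∈ Icc (0:ℝ) 1, ∀ x ∈ S3, Φ (t, x) = x) ∧ (∀ x ∈ B4, Φ (0, x) = x) ∧
    (fun x => Φ (1, x)) '' D₁ = D₂

/-- topological ambient isotopy of the ball, fixing the sphere pointwise, every stage of which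
commutes with `R` -/
def TopologicallyEquivariantlyIsotopic (R : R4 → R4) (D₁ D₂ : Set R4) : Prop :=
  ∃ Φ : ℝ × R4 → R4, ContinuousOn Φ (Icc 0 1 ×ˢ B4) ∧
    (∀ t ∈ Icc (0:ℝ) 1, BijOn (fun x => Φ (t, x)) B4 B4) ∧
    (∀ t ∈ Icc (0:ℝ) 1, ∀ x ∈ B4, Φ (t, R x) = R (Φ (t, x))) ∧
    (∀ t ∈ Icc (0:ℝ) 1, ∀ x ∈ S3, Φ (t, x) = x) ∧ (∀ x ∈ B4, Φ (0, x) = x) ∧
    (fun x => Φ (1, x)) '' D₁ = D₂

/-- There are a strongly negative amphichiral knot `(K, ρ)`, a smooth involution `R` of the ball
extending `ρ`, in fact the standard one, the cone of `ρ`, and two smooth slice discs with boundary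
`K`, both invariant under `R`, which are smoothly isotopic but not equivariantly isotopic, not even
topologically. -/
theorem result : ∃ (K : Set R4) (ρ R : R4 → R4) (D₁ D₂ : Set R4),
    StronglyNegativeAmphichiral K ρ ∧ SmoothInvolutionExtending ρ R ∧
    (∀ x ∈ S3, ∀ t ∈ Icc (0:ℝ) 1, R (t • x) = t • ρ x) ∧
    IsSliceDisk K D₁ ∧ IsSliceDisk K D₂ ∧ R '' D₁ = D₁ ∧ R '' D₂ = D₂ ∧
    SmoothlyIsotopic D₁ D₂ ∧ ¬ TopologicallyEquivariantlyIsotopic R D₁ D₂ := by
  have hrho : ∀ p : R4, pointReflection p = H753.rho4 p := fun p => rfl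
  have hcd : ContDiff ℝ ∞ H753.rho4 := by
    unfold H753.rho4
    exact H753.contDiff_mk4 (by fun_prop) (by fun_prop) (by fun_prop) (by fun_prop)
  have hB : ∀ {p : R4}, p ∈ B4 ↔ H753.nsq p ≤ 1 := fun {p} => H753.nsq_le_iff.symm
  have hS : ∀ {p : R4}, p ∈ S3 ↔ H753.nsq p = 1 := fun {p} => H753.nsq_eq_iff.symm
  refine ⟨H753.KK0, pointReflection, pointReflection, H753.D1, H753.D2, ?_, ?_, ?_, ?_, ?_, ?_, ?_,
    ?_, ?_⟩
  · refine ⟨⟨id, id, ⟨univ, isOpen_univ, subset_univ _, contDiffOn_id⟩,
      ⟨univ, isOpen_univ, subset_univ _, contDiffOn_id⟩, mapsTo_id _, mapsTo_id _,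
      fun _ _ => rfl, fun _ _ => rfl, fun _ _ => rfl⟩, ?_, ?_, ?_⟩
    · apply Subset.antisymm
      · rintro _ ⟨p, ⟨h1, h2⟩, rfl⟩
        exact ⟨by rw [hrho, H753.nsq_rho4]; exact h1, by rw [hrho, H753.zt_rho4, h2, neg_zero]⟩
      · rintro p ⟨h1, h2⟩
        exact ⟨H753.rho4 p, ⟨by rw [H753.nsq_rho4]; exact h1, by rw [H753.zt_rho4, h2, neg_zero]⟩,
          H753.rho4_rho4 p⟩
    · rintro p ⟨h1, _⟩
      exact hS.2 h1
    · refine ⟨fun t => H753.mk4 (Real.sin (2 * Real.pi * t)) 0 0 (Real.cos (2 * Real.pi * t)), ?_, ?_,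
        ?_, ?_, ?_⟩
      · have h1 : ContDiff ℝ ∞ (fun t : ℝ => Real.sin (2 * Real.pi * t)) :=
          Real.contDiff_sin.comp (by fun_prop)
        have h2 : ContDiff ℝ ∞ (fun t : ℝ => Real.cos (2 * Real.pi * t)) :=
          Real.contDiff_cos.comp (by fun_prop)
        exact H753.contDiff_mk4 h1 contDiff_const contDiff_const h2
      · intro t h
        have hl : HasDerivAt (fun t : ℝ => 2 * Real.pi * t) (2 * Real.pi) t := by
          simpa using (hasDerivAt_id t).const_mul (2 * Real.pi)
        have d0 : DifferentiableAt ℝ (fun t => H753.mk4 (Real.sin (2 * Real.pi * t)) 0 0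
            (Real.cos (2 * Real.pi * t))) t := by
          have h1 : ContDiff ℝ 1 (fun t : ℝ => Real.sin (2 * Real.pi * t)) :=
            Real.contDiff_sin.comp (by fun_prop)
          have h2 : ContDiff ℝ 1 (fun t : ℝ => Real.cos (2 * Real.pi * t)) :=
            Real.contDiff_cos.comp (by fun_prop)
          exact H753.diff_of (H753.contDiff_mk4 h1 contDiff_const contDiff_const h2) t
        have hd := d0.hasDerivAt
        rw [h] at hd
        have hd' := hasDerivAt_pi.1 ((EuclideanSpace.equiv (Fin 4) ℝ).hasFDerivAt.comp_hasDerivAt t hd)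
        have h0 := hd' 0
        have h3 := hd' 3
        have e0 : HasDerivAt (fun t : ℝ => Real.sin (2 * Real.pi * t)) 0 t := by
          have : (fun t : ℝ => Real.sin (2 * Real.pi * t)) = fun x => ((EuclideanSpace.equiv (Fin 4) ℝ) ∘
            fun t => H753.mk4 (Real.sin (2 * Real.pi * t)) 0 0 (Real.cos (2 * Real.pi * t))) x 0 := by
            funext x; simp
          rw [this]; simpa using h0
        have e3 : HasDerivAt (fun t : ℝ => Real.cos (2 * Real.pi * t)) 0 t := by
          have : (fun t : ℝ => Real.cos (2 * Real.pi * t)) = fun x => ((EuclideanSpace.equiv (Fin 4) ℝ) ∘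
            fun t => H753.mk4 (Real.sin (2 * Real.pi * t)) 0 0 (Real.cos (2 * Real.pi * t))) x 3 := by
            funext x; simp
          rw [this]; simpa using h3
        have s1 := (hl.sin).unique e0
        have s2 := (hl.cos).unique e3
        have hp := Real.pi_pos
        have hsc := Real.sin_sq_add_cos_sq (2 * Real.pi * t)
        have c0 : Real.cos (2 * Real.pi * t) = 0 := by
          rcases mul_eq_zero.1 s1 with h | h
          · exact h
          · exfalso; linarith
        have c1 : Real.sin (2 * Real.pi * t) = 0 := by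
          rcases mul_eq_zero.1 s2 with h | h
          · linarith
          · exfalso; linarith
        rw [c0, c1] at hsc
        norm_num at hsc
      · intro s t
        have hp := Real.pi_pos
        constructor
        · intro h
          have h0 : Real.sin (2 * Real.pi * s) = Real.sin (2 * Real.pi * t) := by
            have := congrArg (fun p : R4 => p 0) h
            simpa using this
          have h3 : Real.cos (2 * Real.pi * s) = Real.cos (2 * Real.pi * t) := by
            have := congrArg (fun p : R4 => p 3) h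
            simpa using this
          have h4 : Real.cos (2 * Real.pi * (s - t)) = 1 := by
            rw [mul_sub, Real.cos_sub, h0, h3]
            have := Real.sin_sq_add_cos_sq (2 * Real.pi * t)
            nlinarith
          obtain ⟨n, hn⟩ := (Real.cos_eq_one_iff _).1 h4
          refine ⟨n, ?_⟩
          have : 2 * Real.pi * (s - t - n) = 0 := by linarith
          rcases mul_eq_zero.1 this with h | h
          · exfalso; linarith
          · linarith
        · rintro ⟨n, hn⟩
          have : 2 * Real.pi * s = 2 * Real.pi * t + n * (2 * Real.pi) := by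
            have : s = t + n := by linarith
            rw [this]; ring
          simp only [this, Real.sin_add_int_mul_two_pi, Real.cos_add_int_mul_two_pi]
      · apply Subset.antisymm
        · rintro _ ⟨t, rfl⟩
          refine ⟨?_, ?_⟩
          · have := Real.sin_sq_add_cos_sq (2 * Real.pi * t)
            simp [H753.nsq]
          · simp [H753.zt]
        · rintro p ⟨h1, h2⟩
          have z1 : p 1 = 0 := congrArg Prod.fst h2
          have z2 : p 2 = 0 := congrArg Prod.snd h2
          have hn : p 0 ^ 2 + p 3 ^ 2 = 1 := by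
            unfold H753.nsq at h1
            rw [z1, z2] at h1; linarith
          have hne : (⟨p 3, p 0⟩ : ℂ) ≠ 0 := by
            intro hc
            have := Complex.ext_iff.1 hc
            simp only [Complex.zero_re, Complex.zero_im] at this
            rw [this.1, this.2] at hn; norm_num at hn
          have habs : ‖(⟨p 3, p 0⟩ : ℂ)‖ = 1 := by
            rw [Complex.norm_def, Complex.normSq_mk]
            rw [show p 3 * p 3 + p 0 * p 0 = 1 by nlinarith, Real.sqrt_one]
          refine ⟨Complex.arg ⟨p 3, p 0⟩ / (2 * Real.pi), ?_⟩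
          have hp := Real.pi_pos
          have e : 2 * Real.pi * (Complex.arg ⟨p 3, p 0⟩ / (2 * Real.pi)) = Complex.arg ⟨p 3, p 0⟩ := by
            field_simp
          have k1 := Complex.norm_mul_cos_arg (⟨p 3, p 0⟩ : ℂ)
          have k2 := Complex.norm_mul_sin_arg (⟨p 3, p 0⟩ : ℂ)
          rw [habs, one_mul] at k1 k2
          simp only [e]
          apply H753.E4_ext
          · simpa using k2
          · simp [z1]
          · simp [z2]
          · simpa using k1
      · refine ⟨fun t => -t, continuous_neg, fun a b h => neg_lt_neg h, fun t => ?_⟩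
        rw [hrho]
        apply H753.E4_ext <;> simp [H753.rho4]
  · refine ⟨hcd.contDiffOn, ?_, fun x _ => H753.rho4_rho4 x, fun _ _ => rfl⟩
    intro x hx
    rw [hB] at hx ⊢
    rw [hrho, H753.nsq_rho4]; exact hx
  · intro x _ t _
    rw [hrho, hrho]
    apply H753.E4_ext <;> simp [H753.rho4]
  · refine ⟨fun q => H753.r4' (H753.e2 q), ?_, ?_, ?_, ?_, ?_, ?_, ?_, ?_⟩
    · exact H753.r4'_contDiff.comp (H753.e2_contDiff (n := ⊤))
    · intro a _ b _ h
      apply H753.e2_inj
      have := congrArg H753.r4 h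
      simpa only [H753.r4_r4'] using this
    · intro q _
      exact H753.comp_immersion (H753.diff_of (H753.e2_contDiff (n := 1)))
        (H753.diff_of H753.r4'_contDiff) q (H753.e2_immersion q)
        (H753.inj_of_left_inv (H753.diff_of H753.r4'_contDiff) (H753.diff_of H753.r4_contDiff)
          H753.r4_r4' _)
    · rw [← H753.r4'_D2, ← H753.e2_image, image_image]
    · rw [← H753.r4'_KK0, ← H753.e2_sphere, image_image]
    · rintro p ⟨h1, _⟩
      exact hB.2 h1
    · have : S3 = H753.r4' '' S3 := by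
        apply Subset.antisymm
        · intro p hp
          rw [hS] at hp
          exact ⟨H753.r4 p, hS.2 (by rw [H753.nsq_r4]; exact hp), H753.r4'_r4 p⟩
        · rintro _ ⟨p, hp, rfl⟩
          rw [hS] at hp ⊢
          rw [H753.nsq_r4']; exact hp
      rw [← H753.r4'_D2, this, ← image_inter (Function.LeftInverse.injective H753.r4_r4'),
        show (S3 : Set R4) = Metric.sphere 0 1 from rfl, H753.D2_sphere, H753.r4'_KK0]
    · intro q hq
      have hq' : H753.n2 q = 1 := H753.n2_eq_iff.2 hq
      refine H753.io_transverse (L := H753.r4') H753.r4'_contDiff ?_ hq' ?_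
      · intro p
        have hl : IsLinearMap ℝ H753.r4' := by
          constructor
          · intro x y
            apply H753.E4_ext <;> simp [H753.r4']
            ring
          · intro c x
            apply H753.E4_ext <;> simp [H753.r4']
        have hb : IsBoundedLinearMap ℝ H753.r4' := (hl.mk' _).toContinuousLinearMap.isBoundedLinearMap
        have : fderiv ℝ H753.r4' p p = H753.r4' p := by
          rw [hb.fderiv]; rfl
        rw [this, real_inner_self_eq_norm_sq, H753.norm_sq_E4, H753.nsq_r4']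
      · filter_upwards [H753.e2_circle hq'] with x hx
        rw [hx]
  · refine ⟨H753.e2, H753.e2_contDiff (n := ⊤), H753.e2_inj.injOn, fun q _ => H753.e2_immersion q,
      H753.e2_image, H753.e2_sphere, ?_, H753.D2_sphere, ?_⟩
    · rintro p ⟨h1, _⟩
      exact hB.2 h1
    · intro q hq
      have hq' : H753.n2 q = 1 := H753.n2_eq_iff.2 hq
      refine H753.io_transverse (L := id) contDiff_id ?_ hq' ?_
      · intro p
        rw [fderiv_id]
        simp only [id, ContinuousLinearMap.id_apply]
        rw [real_inner_self_eq_norm_sq, H753.norm_sq_E4]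
      · filter_upwards [H753.e2_circle hq'] with x hx
        rw [hx]; rfl
  · exact H753.rho4_D1
  · exact H753.rho4_D2
  · refine ⟨H753.Phi, H753.Psi, (H753.Phi_contDiff (n := ⊤)).contDiffOn,
      (H753.Psi_contDiff (n := ⊤)).contDiffOn, ?_, ?_, ?_, H753.Phi_image⟩
    · intro t _ x hx
      rw [hB] at hx
      exact ⟨hB.2 (by rw [H753.nsq_Phi]; exact hx), hB.2 (by rw [H753.nsq_Psi]; exact hx),
        H753.Psi_Phi t x, H753.Phi_Psi t x⟩
    · intro t _ x hx
      exact H753.Phi_sphere t (hS.1 hx)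
    · intro x _
      exact H753.Phi_zero x
  · rintro ⟨Φ, hc, hb, hR, hs, h0, hD⟩
    have h1 : (1:ℝ) ∈ Icc (0:ℝ) 1 := right_mem_Icc.2 zero_le_one
    have hBB : (B4 : Set R4) = H753.BB := H753.BB_eq.symm
    refine H753.no_homeo (h := fun x => Φ (1, x)) ?_ ?_ ?_ ?_ hD
    · rw [← hBB]
      exact hc.comp (by fun_prop) (fun x hx => ⟨h1, hx⟩)
    · rw [← hBB]; exact hb 1 h1
    · intro x hx
      exact hs 1 h1 x (hS.2 hx)
    · intro x hx
      rw [← hBB] at hx
      exact hR 1 h1 x hx

end Pool.Agent.Results.MP_d3855f_gt.IsotopicNotEquivariantly
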